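import Pool.Agent.Q72.DP.Odd

/-!
# Homologically trivial cycles of one codimension and vector bundles

`𝒱` is the class of smooth projective varieties over `k = ℚ̄` (or any class of smooth proper
varieties over a field `k` closed under products), `C` the Chow groups with rational coefficients (in
the form of their formal properties, `IsChowProj`), `H` a Weil cohomology theory (`IsWeilProj`; for
the problem: Betti cohomology of the complex varieties `X_ℂ`), and `B` the Grothendieck rings of
vector bundles (with their known properties, `IsKTheory`).

Theorem. For every variety `X` and every `m ≥ 1` (in particular for those with `H^(2m-1)(X) = 0`,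
where the problem predicts that the three properties hold) the following are equivalent:
* `CH^m_hom(X) = 0`;
* every vector bundle on `X` of rank `r ≥ m` with Chern classes `c_i = 0` for `0 < i < m` and
  homologically trivial `c_i` for `i ≥ m` has `c_m = 0`;
* for every projective bundle `f : P → X` of a vector bundle of rank `r ≥ m`, with tautological class
  `ξ`: if `f_* (ξ^(r-1+i)) = 0` for `0 < i < m` and `ξ^r` is homologically trivial then
  `f_* (ξ^(r-1+m)) = 0`.
-/

open CategoryTheory AlgebraicGeometry

set_option autoImplicit false

universe u v w

namespace Pool.Agent.Results.MP_32dfd1_ag.OneCodimension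

open Pool.Agent.H914 Pool.Agent.W492.BB Pool.Agent.TH133 Pool.Agent.Q72.DP

/-- The group of homologically trivial cycles of codimension `m` on `X` is zero if and only if it
contains no Chern class `c_m` of a vector bundle with `c_i = 0` for `0 < i < m` and homologically
trivial `c_i` for `i ≥ m`. -/
theorem result {k : Type u} [Field k] {𝒱 : VarClass k} (C : TheoryData.{u, v, 0} 𝒱 ℚ)
    [IsChowProj C] {K : Type w} [Field K] (H : WeilTheoryData.{u, v, w} C K) [IsWeilProj H]
    (B : BundleData C) (hB : B.IsKTheory) (X : 𝒱.Obj) (m : ℕ) (hm : 1 ≤ m) :
    [HomZero H X m, ChernHomZero H B X m, TautHomZero H B X m].TFAE :=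
  homZero_codim hB X hm

end Pool.Agent.Results.MP_32dfd1_ag.OneCodimension
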